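import Pool.Agent.W734.TWB.Stms

/-!
# TWB-COV: the changes of variables
-/
set_option autoImplicit false

noncomputable section

namespace Pool.Agent.W827.TWB

open MeasureTheory Set Filter Metric
open Pool.Agent.W734.TWB

variable {n : ℕ}

/-- shear -/
def shL (i j : Fin n) (a : ℝ) : Cfg n →ₗ[ℝ] Cfg n :=
  LinearMap.id + a • (LinearMap.single ℝ (fun _ : Fin n => E3) i) ∘ₗ (LinearMap.proj j)

/-- sign flip -/
def flL (j : Fin n) : Cfg n →ₗ[ℝ] Cfg n :=
  LinearMap.id - (2 : ℝ) • (LinearMap.single ℝ (fun _ : Fin n => E3) j) ∘ₗ (LinearMap.proj j)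

theorem shL_apply (i j : Fin n) (a : ℝ) (x : Cfg n) (l : Fin n) :
    shL i j a x l = if l = i then x i + a • x j else x l := by
  simp only [shL, LinearMap.add_apply, LinearMap.id_apply, LinearMap.smul_apply,
    LinearMap.comp_apply, LinearMap.proj_apply, LinearMap.single_apply, Pi.add_apply,
    Pi.smul_apply]
  by_cases h : l = i
  · subst h; simp
  · simp [h]

theorem flL_apply (j : Fin n) (x : Cfg n) (l : Fin n) :
    flL j x l = if l = j then - x j else x l := by
  simp only [flL, LinearMap.sub_apply, LinearMap.id_apply, LinearMap.smul_apply,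
    LinearMap.comp_apply, LinearMap.proj_apply, LinearMap.single_apply, Pi.sub_apply,
    Pi.smul_apply]
  by_cases h : l = j
  · subst h; simp only [Pi.single_eq_same, if_true]; module
  · simp [h]

theorem flL_flL (j : Fin n) : flL j ∘ₗ flL j = (LinearMap.id : Cfg n →ₗ[ℝ] Cfg n) := by
  ext1 l
  refine LinearMap.ext fun x => ?_
  funext m
  simp only [LinearMap.comp_apply, LinearMap.id_apply, flL_apply]
  by_cases h : m = j <;> simp [h]

theorem shL_shL {i j : Fin n} (hij : i ≠ j) (a : ℝ) :
    shL i j a ∘ₗ shL i j (-a) = (LinearMap.id : Cfg n →ₗ[ℝ] Cfg n) := by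
  refine LinearMap.ext fun x => ?_
  funext m
  simp only [LinearMap.comp_apply, LinearMap.id_apply, shL_apply]
  by_cases h : m = i
  · subst h; simp only [if_true, hij.symm, if_false]; module
  · simp [h]

theorem fl_sh {i j : Fin n} (hij : i ≠ j) (a : ℝ) :
    flL j ∘ₗ shL i j a = shL i j (-a) ∘ₗ flL j := by
  refine LinearMap.ext fun x => ?_
  funext m
  simp only [LinearMap.comp_apply, shL_apply, flL_apply]
  by_cases h : m = i
  · subst h; simp [hij]
  · by_cases h2 : m = j
    · subst h2; simp [h]
    · simp [h, h2]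

theorem det_fl (j : Fin n) : LinearMap.det (flL j) * LinearMap.det (flL j) = 1 := by
  rw [← LinearMap.det_comp, flL_flL, LinearMap.det_id]

theorem det_sh {i j : Fin n} (hij : i ≠ j) (a : ℝ) :
    LinearMap.det (shL i j a) * LinearMap.det (shL i j a) = 1 := by
  have h1 : LinearMap.det (shL i j a) * LinearMap.det (shL i j (-a)) = 1 := by
    rw [← LinearMap.det_comp, shL_shL hij, LinearMap.det_id]
  have h2 : LinearMap.det (flL j) * LinearMap.det (shL i j a)
      = LinearMap.det (shL i j (-a)) * LinearMap.det (flL j) := by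
    rw [← LinearMap.det_comp, ← LinearMap.det_comp, fl_sh hij]
  have h3 := det_fl j
  have h4 : LinearMap.det (flL j) ≠ 0 := by
    intro h; rw [h] at h3; norm_num at h3
  have h5 : LinearMap.det (shL i j a) = LinearMap.det (shL i j (-a)) := by
    apply mul_left_cancel₀ h4
    rw [h2, mul_comm]
  rw [← h5] at h1
  exact h1

/-- a linear map whose determinant squares to one preserves the measure and is injective -/
theorem mp_of_det {f : Cfg n →ₗ[ℝ] Cfg n} (h : LinearMap.det f * LinearMap.det f = 1) :
    MeasurePreserving f volume volume ∧ Function.Injective f := by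
  have h0 : LinearMap.det f ≠ 0 := by
    intro h1; rw [h1] at h; norm_num at h
  have h1 : |(LinearMap.det f)⁻¹| = 1 := by
    rw [abs_inv]
    have : |LinearMap.det f| = 1 := by
      have h2 : |LinearMap.det f| * |LinearMap.det f| = 1 := by rw [← abs_mul, h, abs_one]
      nlinarith [abs_nonneg (LinearMap.det f)]
    rw [this, inv_one]
  refine ⟨⟨?_, ?_⟩, ?_⟩
  · exact (LinearMap.continuous_of_finiteDimensional f).measurable
  · rw [Measure.map_linearMap_addHaar_eq_smul_addHaar (volume : Measure (Cfg n)) h0, h1]
    simp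
  · have : Function.Bijective f := by
      have := (LinearMap.equivOfDetNeZero f h0).bijective
      exact this
    exact this.1

theorem mp_sh {i j : Fin n} (hij : i ≠ j) (a : ℝ) :
    MeasurePreserving (shL i j a) volume volume ∧ Function.Injective (shL i j a) :=
  mp_of_det (det_sh hij a)

theorem mp_fl (j : Fin n) :
    MeasurePreserving (flL j) volume volume ∧ Function.Injective (flL j) :=
  mp_of_det (det_fl j)

theorem T2_eq {i j : Fin n} (hij : i ≠ j) :
    T2 i j = shL j i 1 ∘ flL j ∘ shL i j (1 / 2) := by
  funext x m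
  simp only [Function.comp_apply, shL_apply, flL_apply, T2]
  by_cases h : m = j
  · subst h
    simp only [Function.update_self, if_true, hij.symm, hij, if_false]
    module
  · rw [Function.update_of_ne h]
    by_cases h2 : m = i
    · subst h2; simp [h]
    · rw [Function.update_of_ne h2]; simp [h, h2]

theorem T3_eq {i j k : Fin n} (hij : i ≠ j) (hik : i ≠ k) (hjk : j ≠ k) :
    T3 i j k = shL k i 1 ∘ flL k ∘ shL j i 1 ∘ flL j ∘ shL i k (1 / 3) ∘ shL i j (1 / 3) := by
  funext x m
  simp only [Function.comp_apply, shL_apply, flL_apply, T3]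
  by_cases h : m = k
  · subst h
    simp only [Function.update_self, if_true, hij.symm, hij, hik, hik.symm, hjk, hjk.symm, if_false]
    module
  · rw [Function.update_of_ne h]
    by_cases h2 : m = j
    · subst h2
      simp only [Function.update_self, if_true, hij.symm, hij, hik, hik.symm, hjk, hjk.symm,
        if_false]
      module
    · rw [Function.update_of_ne h2]
      by_cases h3 : m = i
      · subst h3
        simp only [Function.update_self, if_true, hij.symm, hij, hik, hik.symm, hjk, hjk.symm,
          if_false]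
        module
      · rw [Function.update_of_ne h3]; simp [h, h2, h3]

theorem cov : S_COV := by
  intro n
  refine ⟨fun i j hij => ?_, fun i j k hij hik hjk => ?_⟩
  · rw [T2_eq hij]
    have h1 := mp_sh hij (1 / 2)
    have h2 := mp_fl j
    have h3 := mp_sh hij.symm 1
    exact ⟨h3.1.comp (h2.1.comp h1.1), h3.2.comp (h2.2.comp h1.2)⟩
  · rw [T3_eq hij hik hjk]
    have h1 := mp_sh hij (1 / 3)
    have h2 := mp_sh hik (1 / 3)
    have h3 := mp_fl j
    have h4 := mp_sh hij.symm 1
    have h5 := mp_fl k
    have h6 := mp_sh hik.symm 1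
    exact ⟨h6.1.comp (h5.1.comp (h4.1.comp (h3.1.comp (h2.1.comp h1.1)))),
      h6.2.comp (h5.2.comp (h4.2.comp (h3.2.comp (h2.2.comp h1.2))))⟩

end Pool.Agent.W827.TWB
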