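import Pool.Agent.W734.TWB.Stms

/-!
# TWB-FUB: Fubini with a free variable in the unit cube
-/
set_option autoImplicit false

noncomputable section

namespace Pool.Agent.W827.TWB

open MeasureTheory Set Filter Metric
open Pool.Agent.W734.TWB

theorem measurableSet_Q1 : MeasurableSet Q1 := by
  have : Q1 = ⋂ a : Fin 3, (fun z : E3 => z a) ⁻¹' (Set.Ico (0 : ℝ) 1) := by
    ext z; simp [Q1]
  rw [this]
  refine MeasurableSet.iInter fun a => ?_
  have : Continuous (fun z : E3 => z a) := by fun_prop
  exact this.measurable measurableSet_Ico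

theorem volume_Q1 : volume Q1 = 1 := by
  have h := (PiLp.volume_preserving_toLp (Fin 3)).measure_preimage
    measurableSet_Q1.nullMeasurableSet
  rw [← h]
  have : (@WithLp.toLp 2 (Fin 3 → ℝ)) ⁻¹' Q1 = Set.pi Set.univ (fun _ : Fin 3 => Set.Ico (0 : ℝ) 1) := by
    ext z
    simp [Q1]
  rw [this, Real.volume_pi_Ico]
  simp

/-- general form -/
theorem fub_gen {X α β : Type*} [MeasureSpace X] [MeasureSpace α] [MeasureSpace β]
    [SFinite (volume : Measure α)] [SFinite (volume : Measure β)]
    (e : X ≃ᵐ α × β) (he : MeasurePreserving e volume volume) (upd : X → α → X)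
    (hupd : ∀ x a, e (upd x a) = (a, (e x).2)) (Q : Set α) (hQ : MeasurableSet Q)
    (hQ1 : volume Q = 1) (f : X → ℝ) (hf : Integrable f) :
    (∀ᵐ x : X, Integrable (fun a : α => f (upd x a))) ∧
    IntegrableOn (fun x : X => ∫ a : α, f (upd x a)) {x | (e x).1 ∈ Q} ∧
    ∫ x, f x = ∫ x in {x : X | (e x).1 ∈ Q}, ∫ a : α, f (upd x a) := by
  set F : α × β → ℝ := fun p => f (e.symm p) with hF
  have hupd' : ∀ x a, f (upd x a) = F (a, (e x).2) := by
    intro x a
    rw [hF]
    simp only
    rw [← hupd x a, e.symm_apply_apply]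
  have hFi : Integrable F (volume.prod volume) := by
    have h1 : Integrable (F ∘ e) volume := by
      have : F ∘ e = f := by funext x; simp [hF]
      rw [this]; exact hf
    exact (he.integrable_comp_emb e.measurableEmbedding).1 h1
  set G : β → ℝ := fun b => ∫ a : α, F (a, b) with hG
  have hGi : Integrable G volume := hFi.integral_prod_right
  have hset : {x : X | (e x).1 ∈ Q} = e ⁻¹' (Q ×ˢ univ) := by
    ext x; simp
  have hfun : (fun x : X => ∫ a : α, f (upd x a)) = (fun p : α × β => G p.2) ∘ e := by
    funext x
    simp only [Function.comp_apply, hG]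
    congr 1
    funext a
    exact hupd' x a
  have : IsFiniteMeasure ((volume : Measure α).restrict Q) := ⟨by
    rw [Measure.restrict_apply_univ, hQ1]; exact ENNReal.one_lt_top⟩
  have hres : ((volume : Measure (α × β)).restrict (Q ×ˢ univ))
      = ((volume : Measure α).restrict Q).prod (volume : Measure β) := by
    rw [Measure.volume_eq_prod, ← Measure.prod_restrict, Measure.restrict_univ]
  refine ⟨?_, ?_, ?_⟩
  · have h1 : ∀ᵐ b : β, Integrable (fun a : α => F (a, b)) := hFi.prod_left_ae
    have h2 : ∀ᵐ p : α × β ∂(volume.prod volume), Integrable (fun a : α => F (a, p.2)) :=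
      Measure.quasiMeasurePreserving_snd.ae h1
    have h3 : ∀ᵐ x : X, Integrable (fun a : α => F (a, (e x).2)) :=
      he.quasiMeasurePreserving.ae h2
    filter_upwards [h3] with x hx
    have : (fun a : α => f (upd x a)) = fun a => F (a, (e x).2) := by
      funext a; exact hupd' x a
    rw [this]; exact hx
  · rw [hset, hfun]
    unfold IntegrableOn
    have h1 : MeasurePreserving e (volume.restrict (e ⁻¹' (Q ×ˢ univ)))
        (volume.restrict (Q ×ˢ univ)) :=
      he.restrict_preimage_emb e.measurableEmbedding _
    rw [h1.integrable_comp_emb e.measurableEmbedding, hres]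
    exact hGi.comp_snd _
  · rw [hset, hfun]
    have h1 : MeasurePreserving e (volume.restrict (e ⁻¹' (Q ×ˢ univ)))
        (volume.restrict (Q ×ˢ univ)) :=
      he.restrict_preimage_emb e.measurableEmbedding _
    have h2 : ∫ x in e ⁻¹' (Q ×ˢ univ), ((fun p : α × β => G p.2) ∘ e) x
        = ∫ p in (Q ×ˢ univ), G p.2 :=
      h1.integral_comp e.measurableEmbedding (fun p : α × β => G p.2)
    rw [h2, hres, integral_fun_snd]
    have h3 : ((volume : Measure α).restrict Q).real univ = 1 := by
      rw [measureReal_def, Measure.restrict_apply_univ, hQ1]; simp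
    rw [h3, one_smul]
    have h4 : ∫ x, f x = ∫ p, F p ∂(volume.prod volume) := by
      have : ∫ x, F (e x) = ∫ p, F p := he.integral_comp e.measurableEmbedding F
      rw [Measure.volume_eq_prod] at this
      rw [← this]
      simp [hF]
    rw [h4, integral_prod_symm _ hFi]

theorem fub1 (n : ℕ) (f : Cfg n → ℝ) (hf : Integrable f) (j : Fin n) :
    (∀ᵐ x : Cfg n, Integrable (fun y : E3 => f (Function.update x j y))) ∧
    IntegrableOn (fun x : Cfg n => ∫ y : E3, f (Function.update x j y)) {x | x j ∈ Q1} ∧
    ∫ x, f x = ∫ x in {x : Cfg n | x j ∈ Q1}, ∫ y : E3, f (Function.update x j y) := by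
  cases n with
  | zero => exact j.elim0
  | succ m =>
    have he := volume_preserving_piFinSuccAbove (fun _ : Fin (m + 1) => E3) j
    have h := fub_gen (MeasurableEquiv.piFinSuccAbove (fun _ : Fin (m + 1) => E3) j) he
      (fun x y => Function.update x j y) (by
        intro x a
        refine Prod.ext ?_ ?_
        · show Function.update x j a j = a
          rw [Function.update_self]
        · funext i
          show Function.update x j a (j.succAbove i) = x (j.succAbove i)
          rw [Function.update_of_ne (Fin.succAbove_ne _ _)]) Q1 measurableSet_Q1 volume_Q1 f hf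
    exact h

/-- the equivalence for two coordinates -/
def e2 (m : ℕ) (j : Fin (m + 2)) (k : Fin (m + 1)) :
    Cfg (m + 2) ≃ᵐ (E3 × E3) × Cfg m :=
  (MeasurableEquiv.piFinSuccAbove (fun _ : Fin (m + 2) => E3) j).trans
    (((MeasurableEquiv.refl E3).prodCongr
      (MeasurableEquiv.piFinSuccAbove (fun _ : Fin (m + 1) => E3) k)).trans
      MeasurableEquiv.prodAssoc.symm)

theorem e2_mp (m : ℕ) (j : Fin (m + 2)) (k : Fin (m + 1)) :
    MeasurePreserving (e2 m j k) volume volume := by
  have h1 := volume_preserving_piFinSuccAbove (fun _ : Fin (m + 2) => E3) j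
  have h2 := volume_preserving_piFinSuccAbove (fun _ : Fin (m + 1) => E3) k
  have h3 : MeasurePreserving (Prod.map (id : E3 → E3)
      (MeasurableEquiv.piFinSuccAbove (fun _ : Fin (m + 1) => E3) k))
      (volume.prod volume) (volume.prod (volume.prod volume)) :=
    (MeasurePreserving.id volume).prod h2
  have h4 : MeasurePreserving (MeasurableEquiv.prodAssoc : (E3 × E3) × Cfg m ≃ᵐ _).symm
      volume volume := volume_preserving_prodAssoc.symm
  exact h4.comp (h3.comp h1)

theorem e2_apply (m : ℕ) (j : Fin (m + 2)) (k : Fin (m + 1)) (x : Cfg (m + 2)) :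
    e2 m j k x = ((x j, x (j.succAbove k)), fun i => x (j.succAbove (k.succAbove i))) := rfl

theorem fub2 (n : ℕ) (f : Cfg n → ℝ) (hf : Integrable f) (j k : Fin n) (hjk : j ≠ k) :
    (∀ᵐ x : Cfg n, Integrable (fun p : E3 × E3 =>
      f (Function.update (Function.update x j p.1) k p.2))) ∧
    IntegrableOn (fun x : Cfg n => ∫ p : E3 × E3,
      f (Function.update (Function.update x j p.1) k p.2)) {x | x j ∈ Q1 ∧ x k ∈ Q1} ∧
    ∫ x, f x = ∫ x in {x : Cfg n | x j ∈ Q1 ∧ x k ∈ Q1}, ∫ p : E3 × E3,
      f (Function.update (Function.update x j p.1) k p.2) := by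
  match n, j, k with
  | 0, j, _ => exact j.elim0
  | 1, j, k => exact absurd (Subsingleton.elim j k) hjk
  | m + 2, j, k =>
    obtain ⟨k', rfl⟩ := Fin.exists_succAbove_eq hjk.symm
    have h := fub_gen (e2 m j k') (e2_mp m j k')
      (fun x p => Function.update (Function.update x j p.1) (j.succAbove k') p.2) (by
        intro x a
        rw [e2_apply, e2_apply]
        refine Prod.ext (Prod.ext ?_ ?_) ?_
        · simp only
          rw [Function.update_of_ne hjk, Function.update_self]
        · simp
        · funext i
          simp only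
          rw [Function.update_of_ne, Function.update_of_ne]
          · exact Fin.succAbove_ne _ _
          · intro h
            have := Fin.succAbove_right_injective h
            exact Fin.succAbove_ne _ _ this) (Q1 ×ˢ Q1)
      (measurableSet_Q1.prod measurableSet_Q1) (by
        rw [Measure.volume_eq_prod, Measure.prod_prod, volume_Q1, one_mul]) f hf
    have hset : {x : Cfg (m + 2) | (e2 m j k' x).1 ∈ Q1 ×ˢ Q1}
        = {x | x j ∈ Q1 ∧ x (j.succAbove k') ∈ Q1} := by
      ext x; simp [e2_apply]
    rw [hset] at h
    exact h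

theorem fub : S_FUB := fun n f hf =>
  ⟨fun j => fub1 n f hf j, fun j k hjk => fub2 n f hf j k hjk⟩

end Pool.Agent.W827.TWB
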